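import Pool.Agent.SPV.StmtsL

/-!
# Squad SPV, row MIN: the main inequality
-/

set_option autoImplicit false

namespace Pool.Agent.SPV.H49

open Finset Pool.Agent.SPV

theorem card_inj (q k : ℕ) [NeZero q] :
    (univ.filter fun t : Fin k → ZMod q => Function.Injective t).card = q.descFactorial k := by
  classical
  have h1 : (univ.filter fun t : Fin k → ZMod q => Function.Injective t).card
      = Fintype.card {t : Fin k → ZMod q // Function.Injective t} :=
    (Fintype.card_subtype _).symm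
  rw [h1, Fintype.card_congr (Equiv.subtypeInjectiveEquivEmbedding (Fin k) (ZMod q)),
    Fintype.card_embedding_eq, Fintype.card_fin, ZMod.card]

/-- the set of the multipliers `u` such that a translate of `u t` lies in `Z` -/
noncomputable def US {q k : ℕ} (Z : Finset (ZMod q)) (t : Fin k → ZMod q) : Finset ℕ := by
  classical
  exact (Ico 1 q).filter fun u => ∃ s, ∀ i, (u : ZMod q) * t i + s ∈ Z

theorem mem_US {q k : ℕ} (Z : Finset (ZMod q)) (t : Fin k → ZMod q) (u : ℕ) :
    u ∈ US Z t ↔ u ∈ Ico 1 q ∧ ∃ s, ∀ i, (u : ZMod q) * t i + s ∈ Z := by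
  classical
  unfold US
  rw [mem_filter]

theorem US_sub {q k : ℕ} (Z : Finset (ZMod q)) (t : Fin k → ZMod q) : US Z t ⊆ Ico 1 q :=
  fun u hu => ((mem_US Z t u).1 hu).1

open Classical in
theorem sum_US (q k : ℕ) [NeZero q] (hq : q.Prime) (Z : Finset (ZMod q)) :
    (q - 1) * (univ.filter fun t : Fin k → ZMod q =>
      Function.Injective t ∧ ∃ s, ∀ i, t i + s ∈ Z).card ≤
    ∑ t ∈ univ.filter (fun t : Fin k → ZMod q => Function.Injective t), (US Z t).card := by
  have : Fact q.Prime := ⟨hq⟩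
  have h1 : ∑ t ∈ univ.filter (fun t : Fin k → ZMod q => Function.Injective t), (US Z t).card
      = ∑ u ∈ Ico 1 q, ((univ.filter (fun t : Fin k → ZMod q => Function.Injective t)).filter
        fun t => ∃ s, ∀ i, (u : ZMod q) * t i + s ∈ Z).card := by
    have h2 : ∀ t : Fin k → ZMod q, (US Z t).card
        = ∑ u ∈ Ico 1 q, if (∃ s, ∀ i, (u : ZMod q) * t i + s ∈ Z) then 1 else 0 := by
      intro t
      rw [← card_filter]
      congr 1
      ext u
      rw [mem_US, mem_filter]
    rw [Finset.sum_congr rfl fun t _ => h2 t, Finset.sum_comm]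
    refine Finset.sum_congr rfl fun u _ => ?_
    rw [← card_filter]
  rw [h1]
  have h3 : ∀ u ∈ Ico 1 q, (univ.filter fun t : Fin k → ZMod q =>
      Function.Injective t ∧ ∃ s, ∀ i, t i + s ∈ Z).card ≤
      ((univ.filter (fun t : Fin k → ZMod q => Function.Injective t)).filter
        fun t => ∃ s, ∀ i, (u : ZMod q) * t i + s ∈ Z).card := by
    intro u hu
    rw [mem_Ico] at hu
    have hu0 : (u : ZMod q) ≠ 0 := by
      intro h0
      have h4 := (ZMod.natCast_eq_zero_iff u q).1 h0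
      have h5 := Nat.le_of_dvd (by omega) h4
      omega
    refine card_le_card_of_injOn (fun t i => (u : ZMod q)⁻¹ * t i) ?_ ?_
    · intro t ht
      rw [mem_coe, mem_filter] at ht
      rw [mem_coe, mem_filter, mem_filter]
      obtain ⟨-, hinj, s, hs⟩ := ht
      refine ⟨⟨mem_univ _, ?_⟩, s, fun i => ?_⟩
      · intro i j hij
        exact hinj (mul_left_cancel₀ (inv_ne_zero hu0) hij)
      · rw [mul_inv_cancel_left₀ hu0]
        exact hs i
    · intro t _ t' _ htt
      funext i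
      exact mul_left_cancel₀ (inv_ne_zero hu0) (congrFun htt i)
  have h4 := Finset.sum_le_sum h3
  rw [sum_const, Nat.card_Ico, smul_eq_mul] at h4
  exact h4

theorem cast_inj {q : ℕ} [NeZero q] {x y : ℕ} (hx : x < q) (hy : y < q)
    (h : (x : ZMod q) = (y : ZMod q)) : x = y := by
  have h1 := congrArg ZMod.val h
  rwa [ZMod.val_natCast_of_lt hx, ZMod.val_natCast_of_lt hy] at h1

theorem min_ (h1 : NrmStmt) (h2 : CheStmt) (h3 : PolStmt) (h4 : RtsStmt) (h5 : VanStmt)
    (h6 : SecStmt) : MinStmt := by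
  classical
  intro q hq A hA hAne P r hr hP
  have : NeZero q := ⟨hq.ne_zero⟩
  set k := A.card with hk
  have hk1 : 1 ≤ k := hAne.card_pos
  have hkq : k ≤ q := by
    have h7 := card_le_card hA
    rwa [card_range] at h7
  let en : Fin k ≃ A := A.equivFin.symm
  let a : Fin k → ZMod q := fun j => ((en j : ℕ) : ZMod q)
  have hlt : ∀ j, (en j : ℕ) < q := fun j => mem_range.1 (hA (en j).2)
  have hainj : Function.Injective a := fun i j hij =>
    en.injective (Subtype.ext (cast_inj (hlt i) (hlt j) hij))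
  set w : ℂ := Complex.exp (2 * Real.pi * Complex.I / q) with hw
  have hwp : IsPrimitiveRoot w q := Complex.isPrimitiveRoot_exp q hq.ne_zero
  -- the norms
  have hN : ∀ t : Fin k → ZMod q, Function.Injective t → ∃ N : ℤ, N ≠ 0 ∧
      |(N : ℝ)| = ∏ j ∈ Ico 1 q, ‖ev (dt t a) (w ^ j)‖ ∧
      ∀ (p : ℕ) [Fact p.Prime], p ≠ q → ∀ z : ZMod p, IsPrimitiveRoot z q →
        ∀ U : Finset ℕ, U ⊆ Ico 1 q → (∀ u ∈ U, ev (dt t a) (z ^ u) = 0) →
          (p : ℤ) ^ U.card ∣ N := by
    intro t ht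
    refine h1 q hq (dt t a) w hwp ?_
    rw [(h3 q k t a).1 ℂ w hwp.pow_eq_one]
    exact h2 q hq w hwp k t a ht hainj
  choose! N hN0 hNabs hNdvd using hN
  -- the sets of roots
  have hZ : ∀ p ∈ P, ∃ Z : Finset (ZMod q), Z.card = r ∧ ∀ t : Fin k → ZMod q,
      Function.Injective t → (p : ℤ) ^ (US Z t).card ∣ N t := by
    intro p hp
    obtain ⟨hpp, hqp, β, ⟨i₀, hi₀, hβ⟩, hrn⟩ := hP p hp
    have : Fact p.Prime := ⟨hpp⟩
    have hpq : p ≠ q := by
      rintro rfl
      have h7 := Nat.le_of_dvd (by have := hpp.two_le; omega) hqp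
      have := hpp.two_le
      omega
    obtain ⟨z, hz, hcard⟩ := h4 p q hq hqp
    rw [← hcard A β] at hrn
    obtain ⟨Z, hZs, hZc⟩ := exists_subset_card_eq hrn
    refine ⟨Z, hZc, fun t ht => ?_⟩
    refine hNdvd t ht p hpq z hz (US Z t) (US_sub Z t) fun u hu => ?_
    obtain ⟨hu1, s, hs⟩ := (mem_US Z t u).1 hu
    have huq : u < q := (mem_Ico.1 hu1).2
    have h7 := h5 q k p z hz.pow_eq_one t a (fun j => β (en j)) (u : ZMod q) s
      ⟨en.symm ⟨i₀, hi₀⟩, by
        rw [Equiv.apply_symm_apply]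
        exact hβ⟩ (fun i => by
        have h8 := (mem_filter.1 (hZs (hs i))).2
        rw [← h8]
        have h9 : ∑ j : Fin k, β (en j) * z ^ (((u : ZMod q) * t i + s) * a j).val
            = ∑ x : A, β x * z ^ (((u : ZMod q) * t i + s) * ((x : ℕ) : ZMod q)).val :=
          Equiv.sum_comp en fun x : A =>
            β x * z ^ (((u : ZMod q) * t i + s) * ((x : ℕ) : ZMod q)).val
        rw [h9]
        exact Finset.sum_coe_sort A fun x =>
          β x * z ^ (((u : ZMod q) * t i + s) * ((x : ℕ) : ZMod q)).val)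
    rwa [ZMod.val_natCast_of_lt huq] at h7
  choose! Z hZc hZd using hZ
  have hpr : ∀ p ∈ P, p.Prime := fun p hp => (hP p hp).1
  have hlogp : ∀ p ∈ P, 0 ≤ Real.log p := fun p _ => Real.log_natCast_nonneg p
  have hq1 : 0 < q - 1 := by have := hq.two_le; omega
  -- one tuple
  have hone : ∀ t : Fin k → ZMod q, Function.Injective t →
      ∑ p ∈ P, ((US (Z p) t).card : ℝ) * Real.log p ≤ ((q - 1 : ℕ) : ℝ) * Real.log k.factorial := by
    intro t ht
    have hd : ∏ p ∈ P, (p : ℤ) ^ (US (Z p) t).card ∣ N t := by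
      refine Finset.prod_dvd_of_coprime ?_ fun p hp => hZd p hp t ht
      intro p hp p' hp' hne
      refine IsCoprime.pow ?_
      rw [Nat.isCoprime_iff_coprime]
      exact (Nat.coprime_primes (hpr p hp) (hpr p' hp')).2 hne
    have hle : ∏ p ∈ P, (p : ℝ) ^ (US (Z p) t).card ≤ |(N t : ℝ)| := by
      have h7 : |∏ p ∈ P, (p : ℤ) ^ (US (Z p) t).card| ≤ |N t| :=
        Int.le_of_dvd (abs_pos.2 (hN0 t ht)) ((abs_dvd_abs _ _).2 hd)
      have h8 : ((|∏ p ∈ P, (p : ℤ) ^ (US (Z p) t).card| : ℤ) : ℝ) ≤ ((|N t| : ℤ) : ℝ) := by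
        exact_mod_cast h7
      rw [Int.cast_abs, Int.cast_abs] at h8
      push_cast at h8
      refine le_trans (le_abs_self _) h8
    have hub : |(N t : ℝ)| ≤ (k.factorial : ℝ) ^ (q - 1) := by
      rw [hNabs t ht]
      have h7 : ∏ j ∈ Ico 1 q, ‖ev (dt t a) (w ^ j)‖ ≤ ∏ _j ∈ Ico 1 q, (k.factorial : ℝ) := by
        refine Finset.prod_le_prod (fun j _ => norm_nonneg _) fun j _ => ?_
        refine (h3 q k t a).2 (w ^ j) ?_
        rw [← pow_mul, mul_comm, pow_mul, hwp.pow_eq_one, one_pow]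
      rwa [prod_const, Nat.card_Ico] at h7
    have hpos : ∀ p ∈ P, (0 : ℝ) < (p : ℝ) ^ (US (Z p) t).card := fun p hp =>
      pow_pos (by exact_mod_cast (hpr p hp).pos) _
    have h7 := Real.log_le_log (Finset.prod_pos hpos) (hle.trans hub)
    rw [Real.log_prod (fun p hp => (hpos p hp).ne'), Real.log_pow] at h7
    refine le_trans (le_of_eq ?_) h7
    exact Finset.sum_congr rfl fun p _ => (Real.log_pow _ _).symm
  -- sum over the tuples
  set T : Finset (Fin k → ZMod q) := univ.filter fun t => Function.Injective t with hT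
  have hTc : T.card = q.descFactorial k := card_inj q k
  have hsum : ∑ t ∈ T, ∑ p ∈ P, ((US (Z p) t).card : ℝ) * Real.log p
      ≤ (q.descFactorial k : ℝ) * (((q - 1 : ℕ) : ℝ) * Real.log k.factorial) := by
    have h7 : ∑ t ∈ T, ∑ p ∈ P, ((US (Z p) t).card : ℝ) * Real.log p
        ≤ ∑ _t ∈ T, ((q - 1 : ℕ) : ℝ) * Real.log k.factorial :=
      Finset.sum_le_sum fun t ht => hone t (mem_filter.1 ht).2
    rwa [sum_const, hTc, nsmul_eq_mul] at h7
  set M : ℕ → ℕ := fun p => (univ.filter fun t : Fin k → ZMod q =>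
      Function.Injective t ∧ ∃ s, ∀ i, t i + s ∈ Z p).card with hM
  have hMsum : ∑ p ∈ P, (M p : ℝ) * Real.log p ≤ (q.descFactorial k : ℝ) * Real.log k.factorial := by
    have h7 : ∑ p ∈ P, (((q - 1 : ℕ) : ℝ) * M p) * Real.log p
        ≤ ∑ t ∈ T, ∑ p ∈ P, ((US (Z p) t).card : ℝ) * Real.log p := by
      rw [Finset.sum_comm]
      refine Finset.sum_le_sum fun p hp => ?_
      rw [← Finset.sum_mul]
      refine mul_le_mul_of_nonneg_right ?_ (hlogp p hp)
      have h8 := sum_US q k hq (Z p)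
      have h9 : (((q - 1) * M p : ℕ) : ℝ) ≤ ((∑ t ∈ T, (US (Z p) t).card : ℕ) : ℝ) := by
        exact_mod_cast h8
      push_cast at h9
      exact_mod_cast h9
    have h8 : ((q - 1 : ℕ) : ℝ) * ∑ p ∈ P, (M p : ℝ) * Real.log p
        ≤ ((q - 1 : ℕ) : ℝ) * ((q.descFactorial k : ℝ) * Real.log k.factorial) := by
      have h9 : ((q - 1 : ℕ) : ℝ) * ∑ p ∈ P, (M p : ℝ) * Real.log p
          = ∑ p ∈ P, (((q - 1 : ℕ) : ℝ) * M p) * Real.log p := by
        rw [Finset.mul_sum]
        exact Finset.sum_congr rfl fun p _ => by ring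
      rw [h9]
      refine (h7.trans hsum).trans (le_of_eq ?_)
      ring
    exact le_of_mul_le_mul_left h8 (by exact_mod_cast hq1)
  -- the second moment
  have hrq : (r : ℝ) ≤ q := by exact_mod_cast hr
  have hqk : (0 : ℝ) < (q.descFactorial k : ℝ) := by
    have h7 : 0 < q.descFactorial k := Nat.descFactorial_pos.2 hkq
    exact_mod_cast h7
  set R : ℝ := (r.descFactorial k : ℝ) with hR
  have hR0 : 0 ≤ R := Nat.cast_nonneg _
  have hW : 0 ≤ q * R + (q - r) * (q.descFactorial k : ℝ) := by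
    have h7 : 0 ≤ (q : ℝ) * R := mul_nonneg (Nat.cast_nonneg _) hR0
    have h8 : 0 ≤ ((q : ℝ) - r) * (q.descFactorial k : ℝ) :=
      mul_nonneg (by linarith) hqk.le
    linarith
  have hsec : ∀ p ∈ P, (q : ℝ) * R * (q.descFactorial k)
      ≤ (M p : ℝ) * (q * R + (q - r) * (q.descFactorial k)) := by
    intro p hp
    have h7 := h6 q k (Z p) hk1 hkq
    rw [hZc p hp] at h7
    exact h7
  have hfin : (∑ p ∈ P, Real.log p) * ((q : ℝ) * R * (q.descFactorial k))
      ≤ (q.descFactorial k : ℝ) * Real.log k.factorial *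
        (q * R + (q - r) * (q.descFactorial k)) := by
    refine le_trans ?_ (mul_le_mul_of_nonneg_right hMsum hW)
    rw [Finset.sum_mul, Finset.sum_mul]
    refine Finset.sum_le_sum fun p hp => ?_
    have h7 := mul_le_mul_of_nonneg_left (hsec p hp) (hlogp p hp)
    refine h7.trans (le_of_eq ?_)
    ring
  have hfin2 : (∑ p ∈ P, Real.log p) * ((q : ℝ) * R)
      ≤ Real.log k.factorial * (q * R + (q - r) * (q.descFactorial k)) := by
    refine le_of_mul_le_mul_left ?_ hqk
    refine le_trans (le_of_eq ?_) (hfin.trans (le_of_eq ?_))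
    · ring
    · ring
  have hkf : (0 : ℝ) < k.factorial := by exact_mod_cast Nat.factorial_pos k
  have e1 : R = k.factorial * (r.choose k : ℝ) := by
    rw [hR, Nat.descFactorial_eq_factorial_mul_choose]
    push_cast
    ring
  have e2 : (q.descFactorial k : ℝ) = k.factorial * (q.choose k : ℝ) := by
    rw [Nat.descFactorial_eq_factorial_mul_choose]
    push_cast
    ring
  rw [e1, e2] at hfin2
  refine le_of_mul_le_mul_left ?_ hkf
  refine le_trans (le_of_eq ?_) (hfin2.trans (le_of_eq ?_))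
  · ring
  · ring

end Pool.Agent.SPV.H49
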