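import Pool.Agent.SPV.StmtsA

/-!
# Squad SPV, row PRO: Prony
-/

set_option autoImplicit false

namespace Pool.Agent.SPV.H49

open Finset Pool.Agent.SPV

theorem pro_sum {K : Type} [Field K] (g : K) (B : Finset ℕ) (b : ℕ → K) (m i : ℕ)
    (c : Fin (m + 1) → K) :
    ∑ j : Fin (m + 1), es g B b (i + j.val) * c j
      = ∑ a ∈ B, (b a * ∑ j : Fin (m + 1), c j * (g ^ a) ^ j.val) * (g ^ a) ^ i := by
  unfold es
  have h1 : ∀ j : Fin (m + 1), (∑ a ∈ B, b a * (g ^ a) ^ (i + j.val)) * c j
      = ∑ a ∈ B, b a * (c j * (g ^ a) ^ j.val) * (g ^ a) ^ i := by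
    intro j
    rw [Finset.sum_mul]
    refine Finset.sum_congr rfl fun a _ => ?_
    rw [pow_add]
    ring
  rw [Finset.sum_congr rfl fun j _ => h1 j, Finset.sum_comm]
  refine Finset.sum_congr rfl fun a _ => ?_
  rw [Finset.mul_sum, Finset.sum_mul]

theorem pro : ProStmt := by
  classical
  intro K _ g B b hinj hb y
  set m := B.card with hm
  unfold chi
  set M : Matrix (Fin (m + 1)) (Fin (m + 1)) K := Matrix.of fun i j : Fin (m + 1) =>
    if i.val < m then es g B b (i.val + j.val) else y ^ j.val with hM
  rw [← Matrix.exists_mulVec_eq_zero_iff]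
  constructor
  · rintro ⟨c, hc0, hc⟩
    set P : Polynomial K := ∑ j : Fin (m + 1), Polynomial.C (c j) * Polynomial.X ^ j.val with hP
    have hPe : ∀ x, P.eval x = ∑ j : Fin (m + 1), c j * x ^ j.val := by
      intro x
      rw [hP, Polynomial.eval_finsetSum]
      refine Finset.sum_congr rfl fun j _ => ?_
      rw [Polynomial.eval_mul, Polynomial.eval_C, Polynomial.eval_pow, Polynomial.eval_X]
    have hPd : P.natDegree ≤ m := by
      rw [hP]
      refine Polynomial.natDegree_sum_le_of_forall_le _ _ fun j _ => ?_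
      refine (Polynomial.natDegree_C_mul_X_pow_le _ _).trans ?_
      have := j.2
      omega
    have hP0 : P ≠ 0 := by
      intro h0
      apply hc0
      funext j
      have h1 : P.coeff j.val = c j := by
        rw [hP, Polynomial.finsetSum_coeff]
        rw [Finset.sum_eq_single j]
        · rw [Polynomial.coeff_C_mul_X_pow, if_pos rfl]
        · intro j' _ hj'
          rw [Polynomial.coeff_C_mul_X_pow, if_neg]
          intro h
          exact hj' (Fin.ext h.symm)
        · intro hj
          exact absurd (mem_univ j) hj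
      rw [h0, Polynomial.coeff_zero] at h1
      rw [Pi.zero_apply]
      exact h1.symm
    -- the rows `i < m`
    have hrow : ∀ i : ℕ, i < m → ∑ a ∈ B, (b a * P.eval (g ^ a)) * (g ^ a) ^ i = 0 := by
      intro i hi
      have h1 := congrFun hc ⟨i, by omega⟩
      have h2 : ∑ j : Fin (m + 1), es g B b (i + j.val) * c j = 0 := by
        rw [Pi.zero_apply] at h1
        rw [← h1]
        show _ = ∑ j, M ⟨i, _⟩ j * c j
        refine Finset.sum_congr rfl fun j _ => ?_
        rw [hM, Matrix.of_apply, if_pos hi]
      rw [pro_sum] at h2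
      rw [← h2]
      refine Finset.sum_congr rfl fun a _ => ?_
      rw [hPe]
    have hy : P.eval y = 0 := by
      have h1 := congrFun hc ⟨m, by omega⟩
      rw [Pi.zero_apply] at h1
      rw [hPe, ← h1]
      show _ = ∑ j, M ⟨m, _⟩ j * c j
      refine Finset.sum_congr rfl fun j _ => ?_
      rw [hM, Matrix.of_apply, if_neg (lt_irrefl m), mul_comm]
    -- Vandermonde
    let en : Fin m ≃ B := B.equivFin.symm
    have hv : (fun j : Fin m => b (en j) * P.eval (g ^ (en j : ℕ))) = 0 := by
      refine Matrix.eq_zero_of_forall_pow_sum_mul_pow_eq_zero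
        (f := fun j : Fin m => g ^ (en j : ℕ)) ?_ ?_
      · intro j j' hjj
        exact en.injective (Subtype.ext (hinj (en j).2 (en j').2 hjj))
      · intro i
        have h1 := hrow i.val i.2
        rw [← Finset.sum_coe_sort B fun a => (b a * P.eval (g ^ a)) * (g ^ a) ^ i.val] at h1
        rw [← h1]
        exact Equiv.sum_comp en fun x : B =>
          (b x * P.eval (g ^ (x : ℕ))) * (g ^ (x : ℕ)) ^ i.val
    have hroot : ∀ a ∈ B, P.eval (g ^ a) = 0 := by
      intro a ha
      have h1 := congrFun hv (en.symm ⟨a, ha⟩)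
      rw [Pi.zero_apply, Equiv.apply_symm_apply] at h1
      exact (mul_eq_zero.1 h1).resolve_left (hb a ha)
    by_contra hno
    apply hP0
    refine Polynomial.eq_zero_of_natDegree_lt_card_of_eval_eq_zero' P
      (insert y (B.image fun a => g ^ a)) ?_ ?_
    · intro x hx
      rw [mem_insert, mem_image] at hx
      rcases hx with rfl | ⟨a, ha, rfl⟩
      · exact hy
      · exact hroot a ha
    · rw [card_insert_of_notMem, card_image_of_injOn hinj]
      · omega
      · intro h1
        rw [mem_image] at h1
        obtain ⟨a, ha, hay⟩ := h1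
        exact hno ⟨a, ha, hay.symm⟩
  · rintro ⟨a₀, ha₀, rfl⟩
    set Q : Polynomial K := ∏ a ∈ B, (Polynomial.X - Polynomial.C (g ^ a)) with hQ
    have hQm : Q.Monic := Polynomial.monic_prod_of_monic _ _ fun a _ => Polynomial.monic_X_sub_C _
    have hQd : Q.natDegree = m := by
      rw [hQ, Polynomial.natDegree_prod_of_monic _ _ fun a _ => Polynomial.monic_X_sub_C _]
      rw [Finset.sum_congr rfl fun a _ => Polynomial.natDegree_X_sub_C (g ^ a), sum_const,
        smul_eq_mul, mul_one]
    have hQe : ∀ x, ∑ j : Fin (m + 1), Q.coeff j.val * x ^ j.val = Q.eval x := by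
      intro x
      rw [Polynomial.eval_eq_sum_range, hQd]
      exact (Finset.sum_range fun j => Q.coeff j * x ^ j).symm
    have hQr : ∀ a ∈ B, Q.eval (g ^ a) = 0 := by
      intro a ha
      rw [hQ, Polynomial.eval_prod]
      refine Finset.prod_eq_zero ha ?_
      rw [Polynomial.eval_sub, Polynomial.eval_X, Polynomial.eval_C, sub_self]
    refine ⟨fun j => Q.coeff j.val, ?_, ?_⟩
    · intro h0
      have h1 := congrFun h0 ⟨m, by omega⟩
      rw [Pi.zero_apply] at h1
      have h2 : Q.coeff m = 1 := by
        rw [← hQd]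
        exact hQm
      have h3 : Q.coeff m = 0 := h1
      rw [h2] at h3
      exact one_ne_zero h3
    · funext i
      rw [Pi.zero_apply]
      show ∑ j, M i j * Q.coeff j.val = 0
      by_cases hi : i.val < m
      · have h1 : ∑ j, M i j * Q.coeff j.val
            = ∑ j : Fin (m + 1), es g B b (i.val + j.val) * (fun j : Fin (m + 1) => Q.coeff j.val) j := by
          refine Finset.sum_congr rfl fun j _ => ?_
          rw [hM, Matrix.of_apply, if_pos hi]
        rw [h1, pro_sum]
        refine Finset.sum_eq_zero fun a ha => ?_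
        rw [hQe, hQr a ha, mul_zero, zero_mul]
      · have h1 : ∑ j, M i j * Q.coeff j.val
            = ∑ j : Fin (m + 1), Q.coeff j.val * (g ^ a₀) ^ j.val := by
          refine Finset.sum_congr rfl fun j _ => ?_
          rw [hM, Matrix.of_apply, if_neg hi, mul_comm]
        rw [h1, hQe, hQr a₀ ha₀]

end Pool.Agent.SPV.H49
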