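import Pool.Agent.SPV.StmtsA

/-!
# Squad SPV, row WIN: a window with few nonroots
-/

set_option autoImplicit false

namespace Pool.Agent.SPV.H49

open Finset Pool.Agent.SPV

theorem win_shift (q j : ℕ) (φ : ℕ → Prop) [DecidablePred φ] (hφ : Function.Periodic φ q) :
    ((range q).filter fun t => φ (t + j)).card = ((range q).filter fun t => φ t).card := by
  have h1 := Nat.filter_Ico_card_eq_of_periodic j q φ hφ
  rw [Nat.count_eq_card_filter_range] at h1
  rw [← h1]
  refine card_bij (fun t _ => t + j) ?_ ?_ ?_
  · intro t ht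
    rw [mem_filter, mem_range] at ht
    rw [mem_filter, mem_Ico]
    exact ⟨⟨by omega, by omega⟩, ht.2⟩
  · intro t _ t' _ h
    omega
  · intro x hx
    rw [mem_filter, mem_Ico] at hx
    refine ⟨x - j, ?_, by omega⟩
    rw [mem_filter, mem_range]
    refine ⟨by omega, ?_⟩
    have h2 : x - j + j = x := by omega
    rw [h2]
    exact hx.2

theorem win : WinStmt := by
  intro K _ _ g q L hq hg B b hb
  have hadd : ∀ t j, es g B (fun a => b a * (g ^ a) ^ t) j = es g B b (t + j) := by
    intro t j
    unfold es
    refine Finset.sum_congr rfl fun a _ => ?_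
    rw [mul_assoc, ← pow_add]
  have hper : Function.Periodic (fun t => es g B b t ≠ 0) q := by
    intro t
    have h1 : es g B b (t + q) = es g B b t := by
      unfold es
      refine Finset.sum_congr rfl fun a _ => ?_
      have h2 : (g ^ a) ^ q = 1 := by
        rw [← pow_mul, mul_comm, pow_mul, hg, one_pow]
      rw [pow_add, h2, mul_one]
    show (es g B b (t + q) ≠ 0) = (es g B b t ≠ 0)
    rw [h1]
  set N := ((range q).filter fun t => es g B b t ≠ 0).card with hN
  have hsum : ∑ t ∈ range q, ((range L).filter fun j => es g B b (t + j) ≠ 0).card = L * N := by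
    have h1 : ∀ t, ((range L).filter fun j => es g B b (t + j) ≠ 0).card
        = ∑ j ∈ range L, if es g B b (t + j) ≠ 0 then 1 else 0 := fun t => by
      rw [card_filter]
    rw [Finset.sum_congr rfl fun t _ => h1 t, Finset.sum_comm]
    have h2 : ∀ j ∈ range L, (∑ t ∈ range q, if es g B b (t + j) ≠ 0 then 1 else 0) = N := by
      intro j _
      rw [← card_filter]
      exact win_shift q j (fun t => es g B b t ≠ 0) hper
    rw [Finset.sum_congr rfl h2, sum_const, card_range, smul_eq_mul]
  obtain ⟨t, -, ht⟩ : ∃ t ∈ range q,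
      q * ((range L).filter fun j => es g B b (t + j) ≠ 0).card ≤ L * N := by
    refine exists_le_of_sum_le ⟨0, mem_range.2 hq⟩ ?_
    rw [← mul_sum, hsum, sum_const, card_range, smul_eq_mul]
  refine ⟨fun a => b a * (g ^ a) ^ t, fun a ha => ?_, ?_⟩
  · have hg0 : g ≠ 0 := by
      rintro rfl
      rw [zero_pow hq.ne'] at hg
      exact zero_ne_one hg
    exact mul_ne_zero (hb a ha) (pow_ne_zero _ (pow_ne_zero _ hg0))
  · have h3 : ((range L).filter fun j => es g B (fun a => b a * (g ^ a) ^ t) j ≠ 0)
        = (range L).filter fun j => es g B b (t + j) ≠ 0 := by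
      refine filter_congr fun j _ => ?_
      rw [hadd]
    rw [h3]
    exact ht

end Pool.Agent.SPV.H49
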